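import Pool.Agent.H23.LB.Targets
import Pool.Agent.H28.RC.Basic
import Pool.Agent.H87.HK.DC

/-!
# Module WC of the board gla_modules: convergence, continuity and decay of the complex theta functions
-/

set_option autoImplicit false

open NumberField NumberField.InfinitePlace NumberField.Units
  NumberField.Units.dirichletUnitTheorem MeasureTheory Set Filter Complex
open scoped nonZeroDivisors ENNReal

namespace Pool.Agent.H74.GLA

open Pool.Agent.H25.HK Pool.Agent.H28.RC Pool.Agent.H23.LB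

section
variable {K : Type} [Field K] [NumberField K]

lemma qK_add (y : InfinitePlace K → ℝ) (b : ℝ) (x : K) :
    qK K (fun v => y v + b) x = Real.exp b * qK K y x := by
  unfold qK
  rw [Finset.mul_sum]
  refine Finset.sum_congr rfl fun v _ => ?_
  rw [Real.exp_add]
  ring

lemma abs_ws_add (S : Finset (RP K)) (y : InfinitePlace K → ℝ) (b : ℝ) (x : K) :
    |ws K S (fun v => y v + b) x| = Real.exp (S.card * b / 2) * |ws K S y x| := by
  rw [abs_ws, abs_ws]
  have h : ∀ v : RP K, Real.exp ((y v.1 + b) / 2) * v.1 x =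
      Real.exp (b / 2) * (Real.exp (y v.1 / 2) * v.1 x) := by
    intro v
    rw [add_div, Real.exp_add]
    ring
  rw [Finset.prod_congr rfl fun v _ => h v, Finset.prod_mul_distrib, Finset.prod_const,
    ← Real.exp_nat_mul]
  congr 2
  ring

/-- the real part of `exp ζ` -/
noncomputable def bt (ζ : ℂ) : ℝ := Real.exp ζ.re * Real.cos ζ.im

lemma bt_pos {ζ : ℂ} (h : |ζ.im| < Real.pi / 2) : 0 < bt ζ := by
  have h1 := abs_lt.1 h
  exact mul_pos (Real.exp_pos _) (Real.cos_pos_of_mem_Ioo ⟨by linarith [h1.1], h1.2⟩)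

/-- the constant of the bound -/
noncomputable def ac (S : Finset (RP K)) (ζ : ℂ) : ℝ :=
  Real.exp (ζ.re * S.card / 2 - S.card * Real.log (bt ζ) / 2)

lemma term_le (S : Finset (RP K)) (c : K → ℂ) (ζ : ℂ) (hζ : |ζ.im| < Real.pi / 2)
    (y : InfinitePlace K → ℝ) (x : K) (hc : ‖c x‖ ≤ 1) :
    ‖c x * ((ws K S y x : ℝ) : ℂ) *
      (cexp (ζ * S.card / 2) * cexp (-Real.pi * (cexp ζ * ((qK K y x : ℝ) : ℂ))))‖ ≤
    ac S ζ * Real.exp (-Real.pi * qK K (fun v => y v + Real.log (bt ζ) - Real.log 2) x) := by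
  have hb := bt_pos hζ
  have h1 : ‖cexp (ζ * S.card / 2)‖ = Real.exp (ζ.re * S.card / 2) := by
    rw [Complex.norm_exp]
    congr 1
    have : ζ * (S.card : ℂ) / 2 = ζ * ((S.card / 2 : ℝ) : ℂ) := by
      push_cast
      ring
    rw [this, Complex.re_mul_ofReal]
    ring
  have h2 : ‖cexp (-Real.pi * (cexp ζ * ((qK K y x : ℝ) : ℂ)))‖ =
      Real.exp (-Real.pi * (bt ζ * qK K y x)) := by
    rw [Complex.norm_exp]
    congr 1
    have : -(Real.pi : ℂ) * (cexp ζ * ((qK K y x : ℝ) : ℂ)) =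
        cexp ζ * ((-Real.pi * qK K y x : ℝ) : ℂ) := by
      push_cast
      ring
    rw [this, Complex.re_mul_ofReal, Complex.exp_re]
    unfold bt
    ring
  have h3 : |ws K S y x| = Real.exp (-(S.card * Real.log (bt ζ) / 2)) *
      |ws K S (fun v => y v + Real.log (bt ζ)) x| := by
    rw [abs_ws_add, ← mul_assoc, ← Real.exp_add, neg_add_cancel, Real.exp_zero, one_mul]
  have h4 : bt ζ * qK K y x = qK K (fun v => y v + Real.log (bt ζ)) x := by
    rw [qK_add, Real.exp_log hb]
  rw [norm_mul, norm_mul, norm_mul, h1, h2, Complex.norm_real, Real.norm_eq_abs, h4]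
  have h5 := ws_exp_le S (fun v => y v + Real.log (bt ζ)) x
  have h6 : 0 ≤ |ws K S (fun v => y v + Real.log (bt ζ)) x| *
    Real.exp (-Real.pi * qK K (fun v => y v + Real.log (bt ζ)) x) := by positivity
  calc ‖c x‖ * |ws K S y x| * (Real.exp (ζ.re * S.card / 2) *
        Real.exp (-Real.pi * qK K (fun v => y v + Real.log (bt ζ)) x))
      ≤ 1 * |ws K S y x| * (Real.exp (ζ.re * S.card / 2) *
        Real.exp (-Real.pi * qK K (fun v => y v + Real.log (bt ζ)) x)) := by
        refine mul_le_mul_of_nonneg_right (mul_le_mul_of_nonneg_right hc (abs_nonneg _)) ?_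
        positivity
    _ = ac S ζ * (|ws K S (fun v => y v + Real.log (bt ζ)) x| *
        Real.exp (-Real.pi * qK K (fun v => y v + Real.log (bt ζ)) x)) := by
        rw [h3]
        unfold ac
        rw [sub_eq_add_neg, Real.exp_add]
        ring
    _ ≤ _ := mul_le_mul_of_nonneg_left h5 (Real.exp_pos _).le

lemma ac_pos (S : Finset (RP K)) (ζ : ℂ) : 0 < ac S ζ := Real.exp_pos _

lemma tz_summable (hTH : T_TH) (S : Finset (RP K)) (M : FI K) (hM : M ≠ 0) (c : K → ℂ) (ζ : ℂ)
    (hζ : |ζ.im| < Real.pi / 2) (hc : ∀ x ∈ M, ‖c x‖ ≤ 1) (y : InfinitePlace K → ℝ) :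
    Summable fun x : {x : K // x ∈ M} => ‖c x * ((ws K S y x : ℝ) : ℂ) *
      (cexp (ζ * S.card / 2) * cexp (-Real.pi * (cexp ζ * ((qK K y x : ℝ) : ℂ))))‖ := by
  refine Summable.of_nonneg_of_le (fun x => norm_nonneg _)
    (fun x => term_le S c ζ hζ y x (hc x x.2)) ?_
  exact (hTH K M hM _).1.mul_left _

lemma tz_cont (hTH : T_TH) (S : Finset (RP K)) (M : FI K) (hM : M ≠ 0) (c : K → ℂ) (ζ : ℂ)
    (hζ : |ζ.im| < Real.pi / 2) (hc : ∀ x ∈ M, ‖c x‖ ≤ 1) : Continuous (tz K S M c ζ) := by
  rw [continuous_iff_continuousAt]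
  intro y0
  have hcont : ContinuousOn (tz K S M c ζ) {y | ∀ v, -(1 + ∑ w, |y0 w|) < y v} := by
    unfold tz
    refine continuousOn_tsum (u := fun x : {x : K // x ∈ M} => ac S ζ *
      Real.exp (-Real.pi * qK K (fun _ => -(1 + ∑ w, |y0 w|) + Real.log (bt ζ) - Real.log 2) x))
      ?_ ((hTH K M hM _).1.mul_left _) ?_
    · intro x
      refine Continuous.continuousOn ?_
      refine (continuous_const.mul (Complex.continuous_ofReal.comp
        (continuous_ws S (x : K)))).mul (continuous_const.mul ?_)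
      unfold qK
      fun_prop
    · intro x y hy
      refine (term_le S c ζ hζ y x (hc x x.2)).trans
        (mul_le_mul_of_nonneg_left ?_ (ac_pos S ζ).le)
      have h1 := Pool.Agent.H87.HK.qK_mono
        (y := fun _ => -(1 + ∑ w, |y0 w|) + Real.log (bt ζ) - Real.log 2)
        (y' := fun v => y v + Real.log (bt ζ) - Real.log 2)
        (fun v => by
          have := hy v
          linarith) (x : K)
      apply Real.exp_le_exp.2
      have := Real.pi_pos
      nlinarith
  refine hcont.continuousAt (IsOpen.mem_nhds ?_ ?_)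
  · have : {y : InfinitePlace K → ℝ | ∀ v, -(1 + ∑ w, |y0 w|) < y v} =
        ⋂ v, {y | -(1 + ∑ w, |y0 w|) < y v} := by
      ext y
      simp
    rw [this]
    exact isOpen_iInter_of_finite fun v => isOpen_lt continuous_const (continuous_apply v)
  · intro v
    have h1 : |y0 v| ≤ ∑ w, |y0 w| :=
      Finset.single_le_sum (f := fun w => |y0 w|) (fun w _ => abs_nonneg _) (Finset.mem_univ v)
    have h2 := neg_abs_le (y0 v)
    linarith

open scoped Classical in
lemma tz_decay (hTH : T_TH) (hYC : T_YC) (S : Finset (RP K)) (M : FI K) (hM : M ≠ 0) (c : K → ℂ)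
    (ψ : ℝ) (hψ : |ψ| < Real.pi / 2) (hc : ∀ x ∈ M, ‖c x‖ ≤ 1) (k : ℝ) (hk : 0 < k) (B : ℝ) :
    ∃ C b : ℝ, 0 < b ∧ ∀ T : ℝ, 1 ≤ T → ∀ z : logSpace K, (∀ w, |z w| ≤ B) →
      ‖tz K S M c (ψ * I) (yc K (Real.log (T * k)) z) - (if S = ∅ then c 0 else 0)‖ ≤
        C * Real.exp (-b * T ^ ((2 : ℝ) / Module.finrank ℚ K)) := by
  have hζ : |((ψ : ℂ) * I).im| < Real.pi / 2 := by
    simpa using hψ
  set ζ : ℂ := (ψ : ℂ) * I with hζdef
  have hb := bt_pos hζ
  obtain ⟨C0, hC0⟩ := (hYC K).2.2.2.2.2 B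
  have hyc := (hYC K).2.2.2.1
  obtain ⟨δ, hδ, hδ2⟩ := Pool.Agent.H87.HK.exists_delta M (hTH K M hM _).1
  set D : ℝ := C0 - 2 * Real.log k / Module.finrank ℚ K with hD
  set L : ℝ := Real.log (bt ζ) with hL
  have hsum := (hTH K M hM (fun _ => -D + L - Real.log 4)).1
  have hq : ∀ x : K, qK K (fun _ => -D + L - Real.log 4) x =
      Real.exp (-D) * bt ζ / 4 * qK K (fun _ => 0) x := by
    intro x
    rw [Pool.Agent.H87.HK.qK_const, Real.exp_sub, Real.exp_add,
      Real.exp_log (show (0 : ℝ) < 4 by norm_num), hL, Real.exp_log hb]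
  refine ⟨ac S ζ * ∑' x : {x : K // x ∈ M},
      Real.exp (-Real.pi * qK K (fun _ => -D + L - Real.log 4) x),
    Real.pi * (Real.exp (-D) * bt ζ) / 4 * δ, by positivity, ?_⟩
  intro T hT z hz
  have hTpos : 0 < T := by linarith
  set s : ℝ := T ^ ((2 : ℝ) / Module.finrank ℚ K) with hs
  have hs1 : 1 ≤ s := Real.one_le_rpow hT (by positivity)
  have hsexp : s = Real.exp (2 * Real.log T / Module.finrank ℚ K) := by
    rw [hs, Real.rpow_def_of_pos hTpos]
    congr 1
    ring
  have hlow : ∀ x : K, Real.exp (-D) * s * qK K (fun _ => 0) x ≤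
      qK K (yc K (Real.log (T * k)) z) x := by
    intro x
    have h4 : ∀ v, (2 * Real.log T / Module.finrank ℚ K - D) ≤
        yc K (Real.log (T * k)) z v := by
      intro v
      rw [hyc, Real.log_mul hTpos.ne' hk.ne', mul_add, add_div]
      have := neg_abs_le (yc K 0 z v)
      have h5 := hC0 z hz v
      linarith
    have h5 := Pool.Agent.H87.HK.qK_mono
      (y := fun _ => 2 * Real.log T / Module.finrank ℚ K - D) h4 x
    rw [Pool.Agent.H87.HK.qK_const, sub_eq_add_neg, Real.exp_add, ← hsexp] at h5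
    linarith [h5, mul_comm s (Real.exp (-D))]
  set Y := yc K (Real.log (T * k)) z with hY
  have hmain : Summable fun x : {x : K // x ∈ M} => c x * ((ws K S Y x : ℝ) : ℂ) *
      (cexp (ζ * S.card / 2) * cexp (-Real.pi * (cexp ζ * ((qK K Y x : ℝ) : ℂ)))) :=
    (tz_summable hTH S M hM c ζ hζ hc Y).of_norm
  have hth : tz K S M c ζ Y - (if S = ∅ then c 0 else 0) =
      ∑' x : {x : K // x ∈ M}, ite (x = ⟨0, M.zero_mem⟩) 0
        (c x * ((ws K S Y x : ℝ) : ℂ) *
      (cexp (ζ * S.card / 2) * cexp (-Real.pi * (cexp ζ * ((qK K Y x : ℝ) : ℂ))))) := by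
    unfold tz
    rw [hmain.tsum_eq_add_tsum_ite ⟨0, M.zero_mem⟩]
    simp only
    have h7 : c 0 * ((ws K S Y 0 : ℝ) : ℂ) * (cexp (ζ * S.card / 2) *
        cexp (-Real.pi * (cexp ζ * ((qK K Y 0 : ℝ) : ℂ)))) =
        if S = ∅ then c 0 else 0 := by
      rw [Pool.Agent.H87.HK.qK_zero]
      split_ifs with hS
      · subst hS
        rw [ws_empty]
        simp
      · rw [ws_zero S hS]
        simp
    rw [h7]
    ring
  rw [hth]
  have hA := ac_pos S ζ
  have hfin : HasSum (fun x : {x : K // x ∈ M} => ac S ζ *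
      (Real.exp (-Real.pi * qK K (fun _ => -D + L - Real.log 4) x) *
        Real.exp (-(Real.pi * (Real.exp (-D) * bt ζ) / 4 * δ) * s)))
      (ac S ζ * (∑' x : {x : K // x ∈ M},
        Real.exp (-Real.pi * qK K (fun _ => -D + L - Real.log 4) x)) *
        Real.exp (-(Real.pi * (Real.exp (-D) * bt ζ) / 4 * δ) * s)) := by
    rw [mul_assoc]
    exact (hsum.hasSum.mul_right _).mul_left _
  refine tsum_of_norm_bounded hfin ?_
  intro x
  have hπ := Real.pi_pos
  have ha : 0 < Real.exp (-D) * bt ζ := mul_pos (Real.exp_pos _) hb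
  split_ifs with hx
  · rw [norm_zero]
    positivity
  · have hx' : (x : K) ≠ 0 := fun h => hx (Subtype.ext h)
    refine (term_le S c ζ hζ Y x (hc x x.2)).trans (mul_le_mul_of_nonneg_left ?_ hA.le)
    rw [← Real.exp_add, hq]
    have h12 : qK K (fun v => Y v + L - Real.log 2) (x : K) = bt ζ * qK K Y x / 2 := by
      have h13 := qK_add Y (L - Real.log 2) (x : K)
      have h14 : (fun v => Y v + (L - Real.log 2)) = fun v => Y v + L - Real.log 2 := by
        funext v
        ring
      rw [h14] at h13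
      rw [h13, Real.exp_sub, hL, Real.exp_log hb, Real.exp_log two_pos]
      ring
    rw [h12]
    apply Real.exp_le_exp.2
    have h5 := hlow x
    have h6 := hδ2 x hx'
    have h7 : 0 ≤ qK K (fun _ => 0) (x : K) := Pool.Agent.H87.HK.qK_nonneg _ _
    set q := qK K (fun _ => 0) (x : K) with hqdef
    set a := Real.exp (-D) * bt ζ with hadef
    have h15 : a * s * q ≤ bt ζ * qK K Y x := by
      have := mul_le_mul_of_nonneg_left h5 hb.le
      calc a * s * q = bt ζ * (Real.exp (-D) * s * q) := by rw [hadef]; ring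
        _ ≤ _ := this
    have h8 : a / 4 * q + a / 4 * δ * s ≤ a * s * q / 2 := by
      have h9 : a / 4 * q ≤ a / 4 * s * q := by
        have : 0 ≤ a / 4 * q := by positivity
        nlinarith
      have h10 : a / 4 * δ * s ≤ a / 4 * s * q := by
        have : 0 ≤ a / 4 * s := by positivity
        nlinarith
      linarith
    have h11 : Real.pi * (a / 4 * q + a / 4 * δ * s) ≤ Real.pi * (bt ζ * qK K Y x / 2) :=
      mul_le_mul_of_nonneg_left (by linarith) hπ.le
    linarith

lemma norm_ci (f : Ideal (𝓞 K)) (M : FI K) (r x : K) : ‖ci K f M r x‖ ≤ 1 := by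
  unfold ci
  split_ifs <;> simp

lemma norm_ca (r x : K) : ‖ca K r x‖ ≤ 1 := by
  unfold ca
  have : 2 * (Real.pi : ℂ) * I * ((Algebra.trace ℚ K (r * x) : ℚ) : ℂ) =
      ((2 * Real.pi * ((Algebra.trace ℚ K (r * x) : ℚ) : ℝ) : ℝ) : ℂ) * I := by
    push_cast
    ring
  rw [this, Complex.norm_exp_ofReal_mul_I]

lemma cv_pos (hDU : T_DU) (M : FI K) (hM : M ≠ 0) : 0 < cv K M := by
  unfold cv
  have h1 := (hDU K M hM).2.2.2.1
  have h2 : (discr K : ℝ) ≠ 0 := by
    exact_mod_cast discr_ne_zero K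
  exact mul_pos (Real.sqrt_pos.2 (abs_pos.2 h2)) h1

lemma yc_contOn (hYC : T_YC) (g : ℝ → ℝ) (hg : ContinuousOn g (Ioi 0)) (hg0 : ∀ t ∈ Ioi (0 : ℝ), g t ≠ 0)
    (e : logSpace K → logSpace K) (he : Continuous e) :
    ContinuousOn (fun p : ℝ × logSpace K => yc K (Real.log (g p.1)) (e p.2)) (Ioi 0 ×ˢ univ) := by
  have h1 := (hYC K).2.2.2.2.1
  have h2 : ContinuousOn (fun p : ℝ × logSpace K => (Real.log (g p.1), e p.2))
      (Ioi 0 ×ˢ univ) := by
    refine ContinuousOn.prodMk ?_ (he.comp continuous_snd).continuousOn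
    refine ContinuousOn.log ?_ ?_
    · exact hg.comp continuous_fst.continuousOn fun p hp => hp.1
    · intro p hp
      exact hg0 _ hp.1
  exact h1.comp_continuousOn h2

end

open scoped Classical in
theorem pf_WC0 (hTH : T_TH) (hYC : T_YC) (hDU : T_DU) : T_WC := by
  intro K _ _ S f M r φ hf hM hr hφ
  have hfM : (f : FI K) * M ≠ 0 := by
    refine mul_ne_zero ?_ hM
    rwa [Ne, FractionalIdeal.coeIdeal_eq_zero]
  have hdu : du K ((f : FI K) * M) ≠ 0 := (hDU K _ hfM).1
  have hcv := cv_pos hDU _ hfM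
  have hζ1 : |((φ : ℂ) * I).im| < Real.pi / 2 := by
    simpa using hφ
  have hζ2 : |(-((φ : ℂ) * I)).im| < Real.pi / 2 := by
    simpa using hφ
  refine ⟨fun N c ζ hN hc hζ y => tz_summable hTH S N hN c ζ hζ hc y, ?_, ?_, ?_⟩
  · unfold W
    refine (tz_cont hTH S M hM _ _ hζ1 fun x _ => norm_ci f M r x).comp_continuousOn ?_
    refine yc_contOn hYC (fun t => t / cv K ((f : FI K) * M)) ?_ ?_ (fun z => z) continuous_id
    · fun_prop
    · intro t ht
      exact (div_pos ht hcv).ne'
  · unfold W'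
    refine (tz_cont hTH S _ hdu _ _ hζ2 fun x _ => norm_ca r x).comp_continuousOn ?_
    refine yc_contOn hYC (fun t => t * cv K ((f : FI K) * M)) ?_ ?_ (fun z => -z) continuous_neg
    · fun_prop
    · intro t ht
      exact (mul_pos ht hcv).ne'
  · intro B
    obtain ⟨C1, b1, hb1, h1⟩ := tz_decay hTH hYC S M hM (ci K f M r) φ hφ
      (fun x _ => norm_ci f M r x) (cv K ((f : FI K) * M))⁻¹ (inv_pos.2 hcv) B
    obtain ⟨C2, b2, hb2, h2⟩ := tz_decay hTH hYC S _ hdu (ca K r) (-φ) (by rwa [abs_neg])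
      (fun x _ => norm_ca r x) (cv K ((f : FI K) * M)) hcv B
    refine ⟨max |C1| |C2|, min b1 b2, lt_min hb1 hb2, ?_⟩
    intro T hT z hz
    have hs0 : 0 ≤ T ^ ((2 : ℝ) / Module.finrank ℚ K) := by positivity
    constructor
    · have h3 := h1 T hT z hz
      have h4 : (if S = ∅ then ci K f M r 0 else 0) = d0 K S f M r := by
        unfold d0 ci
        rw [zero_sub]
        by_cases hS : S = ∅
        · by_cases h5 : r ∈ (f : FI K) * M
          · have h8 : -r ∈ (f : FI K) * M := FractionalIdeal.mem_coe.1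
              (Submodule.neg_mem (((f : FI K) * M : FI K) : Submodule (𝓞 K) K)
                (FractionalIdeal.mem_coe.2 h5))
            rw [if_pos hS, if_pos h8, if_pos ⟨hS, h5⟩]
          · have h8 : ¬ -r ∈ (f : FI K) * M := by
              intro h6
              have h7 : - -r ∈ (f : FI K) * M := FractionalIdeal.mem_coe.1
                (Submodule.neg_mem (((f : FI K) * M : FI K) : Submodule (𝓞 K) K)
                  (FractionalIdeal.mem_coe.2 h6))
              rw [neg_neg] at h7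
              exact h5 h7
            rw [if_pos hS, if_neg h8, if_neg (fun h => h5 h.2)]
        · rw [if_neg hS, if_neg (fun h => hS h.1)]
      rw [h4, ← div_eq_mul_inv] at h3
      refine h3.trans ?_
      refine mul_le_mul ((le_abs_self _).trans (le_max_left _ _)) ?_ (Real.exp_pos _).le
        (le_max_of_le_left (abs_nonneg _))
      apply Real.exp_le_exp.2
      have := min_le_left b1 b2
      nlinarith
    · have h3 := h2 T hT (-z) (by simpa using hz)
      have h4 : (if S = ∅ then ca K r 0 else 0) = d1 K S := by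
        unfold d1 ca
        simp
      have h5 : ((-φ : ℝ) : ℂ) * I = -((φ : ℂ) * I) := by
        push_cast
        ring
      rw [h4, h5] at h3
      refine h3.trans ?_
      refine mul_le_mul ((le_abs_self _).trans (le_max_right _ _)) ?_ (Real.exp_pos _).le
        (le_max_of_le_left (abs_nonneg _))
      apply Real.exp_le_exp.2
      have := min_le_right b1 b2
      nlinarith

theorem pf_WC (hTH : T_TH) (hYC : T_YC) (hDU : T_DU) : T_WC := pf_WC0 hTH hYC hDU

end Pool.Agent.H74.GLA
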